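import Pool.Agent.H61.KW.TA

set_option autoImplicit false

/-!
# RK2: pairs of extreme rays in faces of rank 2 and in triangles
-/

open Set

namespace Pool.Agent.H86.KW.RK2

open Pool.Agent.H61.KV Pool.Agent.H61.KW

theorem pf_RK2 (h : T_THN) (h2 : T_GNF) : T_RK2 := by
  intro V _ _ _ C hC
  constructor
  · intro x y hx hy hxy hrk w hw hwxy
    have hq : x + y ∈ C := hC.add x hx.1 y hy.1
    have hli : LinearIndependent ℝ ![x, y] := by
      rw [LinearIndependent.pair_iff]
      intro s t hst
      by_cases ht : t = 0
      · subst ht
        rw [zero_smul, add_zero] at hst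
        rcases smul_eq_zero.1 hst with h3 | h3
        · exact ⟨h3, rfl⟩
        · exact absurd h3 hx.2.1
      · exfalso
        have h3 : y = (-s / t) • x := by
          have h4 : t • y = (-s) • x := by
            rw [neg_smul]
            exact eq_neg_of_add_eq_zero_right hst
          rw [div_eq_inv_mul, mul_smul, ← h4, smul_smul, inv_mul_cancel₀ ht, one_smul]
        have h5 : 0 < -s / t := coef_pos hC hx.1 hx.2.1 (h3 ▸ hy.1) (h3 ▸ hy.2.1)
        apply hxy
        rw [h3]
        exact smul_fc hC hx.1 h5.le (self hC hx.1)
    have hG : Gen C ![x, y] (x + y) := by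
      refine h V C (x + y) 2 ![x, y] hC hq hrk hli ?_ ?_ ?_
      · intro i
        fin_cases i
        · exact hx
        · exact hy
      · intro i
        fin_cases i
        · exact left_fc hC hx.1 hy.1
        · exact right_fc hC hx.1 hy.1
      · intro i
        fin_cases i
        · have e1 : ∑ j ∈ (Finset.univ : Finset (Fin 2)).erase 0, (![x, y] : Fin 2 → V) j = y := by
            have e2 : (Finset.univ : Finset (Fin 2)).erase 0 = {1} := by decide
            rw [e2, Finset.sum_singleton]
            rfl
          intro h3
          have h4 : x + y ∈ Fc C y := by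
            have h3' : x + y ∈ Fc C
                (∑ j ∈ (Finset.univ : Finset (Fin 2)).erase 0, (![x, y] : Fin 2 → V) j) := h3
            rwa [e1] at h3'
          have h5 := rk_mono hC hy.1 h4
          rw [ex_rk hC hy, hrk] at h5
          omega
        · have e1 : ∑ j ∈ (Finset.univ : Finset (Fin 2)).erase 1, (![x, y] : Fin 2 → V) j = x := by
            have e2 : (Finset.univ : Finset (Fin 2)).erase 1 = {0} := by decide
            rw [e2, Finset.sum_singleton]
            rfl
          intro h3
          have h4 : x + y ∈ Fc C x := by
            have h3' : x + y ∈ Fc C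
                (∑ j ∈ (Finset.univ : Finset (Fin 2)).erase 1, (![x, y] : Fin 2 → V) j) := h3
            rwa [e1] at h3'
          have h5 := rk_mono hC hx.1 h4
          rw [ex_rk hC hx, hrk] at h5
          omega
    obtain ⟨i, hi⟩ := (h2 V C (x + y) 2 ![x, y] hC hq hG).2.2.2.1 w hw hwxy
    fin_cases i
    · exact Or.inl hi
    · exact Or.inr hi
  · intro s x y hs hS hx hy hxs hys hxy
    obtain ⟨W, hW⟩ := hS
    have hG := h2 V C s 3 W hC hs hW
    obtain ⟨i, hi⟩ := hG.2.2.2.1 x hx hxs
    obtain ⟨j, hj⟩ := hG.2.2.2.1 y hy hys
    obtain ⟨a, ha, hxa⟩ := ex_par hC (hW.2.1 i) hx hi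
    obtain ⟨b, hb, hyb⟩ := ex_par hC (hW.2.1 j) hy hj
    have hij : i ≠ j := by
      rintro rfl
      apply hxy
      have h3 : y = (b / a) • x := by
        rw [hxa, smul_smul, div_mul_cancel₀ _ ha.ne']
        exact hyb
      rw [h3]
      exact smul_fc hC hx.1 (by positivity) (self hC hx.1)
    have hsum : x + y = ∑ l, ((if l = i then a else 0) + (if l = j then b else 0)) • W l := by
      simp only [add_smul, ite_smul, zero_smul, Finset.sum_add_distrib, Finset.sum_ite_eq',
        Finset.mem_univ, if_true]
      rw [← hxa, ← hyb]
    have hle : Sp C (x + y) ≤ Submodule.span ℝ ({W i, W j} : Set V) := by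
      refine Submodule.span_le.2 ?_
      intro r hr
      rw [hsum] at hr
      obtain ⟨d, hd0, hd, rfl⟩ := hG.2.2.2.2.1
        (fun l => (if l = i then a else 0) + (if l = j then b else 0))
        (fun l => by positivity) r hr
      refine Submodule.sum_mem _ (fun l _ => ?_)
      by_cases hli : l = i
      · subst hli
        exact Submodule.smul_mem _ _ (Submodule.subset_span (by simp))
      · by_cases hlj : l = j
        · subst hlj
          exact Submodule.smul_mem _ _ (Submodule.subset_span (by simp))
        · have h3 : d l = 0 := hd l (by simp [hli, hlj])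
          rw [h3, zero_smul]
          exact Submodule.zero_mem _
    have h4 : rk C (x + y) ≤ 2 := by
      unfold rk
      refine (Submodule.finrank_mono hle).trans ?_
      classical
      have h5 : ({W i, W j} : Set V) = ((({W i, W j} : Finset V)) : Set V) := by simp
      rw [h5]
      exact (finrank_span_finset_le_card _).trans Finset.card_le_two
    have h6 := rk_add_ex hC hx.1 hy.1 hxy
    rw [ex_rk hC hx] at h6
    omega

end Pool.Agent.H86.KW.RK2
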